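import Pool.Agent.H20.UN.ZN

/-!
Parshin's conjecture for `K_1`, in weight two, of uniruled threefolds and, in every dimension
`m + 3`, of the varieties dominated by the product of a surface and a projective space of
dimension `m + 1`: let `X` be a regular projective variety of dimension `m + 3` over an algebraic
extension `F` of a prime field `F_p` (a finite field, or an algebraic closure of it) whose function
field embeds in a rational function field `K(t_1, …, t_(m+1))`, where `K` is the function field of
a regular projective surface. Then `H^1(X, K_2)` is a torsion group. For `m = 0` these are the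
uniruled threefolds. (Surfaces are treated in `K1Surfaces`.)

Here `H^1(X, K_2)` is the group of the sections `β` of the sheaf `K_2(F(X)) / K_2` modulo the
elements of `K_2(F(X))`; a section is given, up to symbols of units, by its tame symbols at the
points of codimension one.
-/

set_option autoImplicit false

open AlgebraicGeometry CategoryTheory Pool.Agent.K1 Pool.Agent.KM Pool.Agent.H20.UT

namespace Pool.Agent.Results.MP_27fd67_ag.DominatedBySurface

/-- Let `F` be an algebraic extension of the field with `p` elements (for example a finite field),
`X` an integral closed subscheme of a projective space over `F`, all of whose local rings are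
regular, of dimension `m + 3`. Let `S` be a regular projective surface over an algebraically closed
field `k` which is algebraic over the field with `p` elements, and suppose that the function field
of `X` embeds in the field of rational functions in `m + 1` variables over the function field of
`S`.
Let `β` be a section of the sheaf `K_2(F(X)) / K_2` on `X`, and `ξ` the chain of its tame symbols
at the points of codimension one. Then `ξ` has a positive multiple that is a sum of tame symbols
of pairs of nonzero rational functions on `X`. -/
theorem result (p : ℕ) [Fact p.Prime] (F : Type) [Field F]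
    [Algebra (ZMod p) F] [Algebra.IsAlgebraic (ZMod p) F] (n m : ℕ)
    (X : Scheme.{0}) [IsIntegral X] [IsNoetherian X] (i : X ⟶ PN F n) [IsClosedImmersion i]
    (hreg : ∀ x : X, IsRegularLocalRing (X.presheaf.stalk x))
    (hdim : ∀ x : X, Order.coheight x ≤ ((m + 3 : ℕ) : ℕ∞))
    (hdim2 : ∃ x : X, Order.coheight x = ((m + 3 : ℕ) : ℕ∞))
    (k : Type) [Field k] [IsAlgClosed k] [Algebra (ZMod p) k] [Algebra.IsAlgebraic (ZMod p) k]
    (l : ℕ) (S : Scheme.{0}) [IsIntegral S] [IsNoetherian S] (j : S ⟶ PN k l)
    [IsClosedImmersion j] (hregS : ∀ x : S, IsRegularLocalRing (S.presheaf.stalk x))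
    (hdimS : ∀ x : S, Order.coheight x ≤ 2) (hdimS2 : ∃ x : S, Order.coheight x = 2)
    (ι : X.functionField →+* FractionRing (MvPolynomial (Fin (m + 1)) S.functionField))
    (β : X → MilnorK X.functionField 2) (hβ : IsSection2 β) (ξ : SChain X)
    (hξ : ∀ x : PointOne X, IsTameK2 x.1 (β x.1) (Additive.toMul (ξ x))) :
    ∃ N : ℕ, 0 < N ∧ N • ξ ∈ tameChains X :=
  Pool.Agent.H20.UN.final_allN p F n (m + 1) X i hreg hdim hdim2 k l S j hregS hdimS hdimS2 ι β hβ ξ hξ

end Pool.Agent.Results.MP_27fd67_ag.DominatedBySurface
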