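import Pool.Agent.K1.DFinal

/-!
Parshin's conjecture for `K_1` of surfaces: for every smooth projective surface `X` over a finite
field `F`, and over every algebraic extension `F` of a finite field, the group `H^1(X, K_2)`, the
homology of the Gersten complex

  `K_2(F(X)) → ⨁ κ(x)^* → ⨁ ℤ`

(tame symbols of pairs of rational functions; `x` runs through the points of codimension one;
divisors, at the points of codimension two), is a torsion group.
-/

set_option autoImplicit false

open AlgebraicGeometry CategoryTheory Pool.Agent.K1

namespace Pool.Agent.Results.MP_27fd67_ag.K1Surfaces

/-- Let `F` be an algebraic extension of the field with `p` elements (for example a finite field),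
`X` an integral closed subscheme of a projective space over `F`, all of whose local rings are
regular (that is, `X` is smooth over `F`, as `F` is perfect), of dimension two.  Every chain `ξ`
(finite family of nonzero rational functions `ξ x` on the curves of `X`) with divisor zero has a
positive multiple that is a sum of tame symbols of pairs of nonzero rational functions on `X`. -/
theorem result (p : ℕ) [Fact p.Prime] (F : Type) [Field F]
    [Algebra (ZMod p) F] [Algebra.IsAlgebraic (ZMod p) F] (n : ℕ)
    (X : Scheme.{0}) [IsIntegral X] [IsNoetherian X] (i : X ⟶ PN F n) [IsClosedImmersion i]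
    (hreg : ∀ x : X, IsRegularLocalRing (X.presheaf.stalk x))
    (hdim : ∀ x : X, Order.coheight x ≤ 2) (hdim2 : ∃ x : X, Order.coheight x = 2)
    (ξ : SChain X) (hξ : IsCycle1 ξ) :
    ∃ N : ℕ, 0 < N ∧ N • ξ ∈ tameChains X :=
  K1_projective_field p F n X i hreg hdim hdim2 ξ hξ

end Pool.Agent.Results.MP_27fd67_ag.K1Surfaces
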