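import Pool.Agent.KM.ZMain4
import Pool.Agent.KM.TMain

/-!
Milnor K-theory of fields of characteristic `p` with rational coefficients: for every `d` the
groups `K_n^M(F) ⊗ ℚ` vanish for all `n ≥ 2 ^ d`, uniformly for all fields `F` of transcendence
degree at most `d` over the field with `p` elements.
-/

set_option autoImplicit false

open Pool.Agent.KM

namespace Pool.Agent.Results.MP_27fd67_ag.MilnorK

/-- Let `F` be any field of characteristic `p` (a field which is an algebra over the field with
`p` elements) of transcendence degree at most `d` over its prime field, and `n ≥ 2 ^ d`. Then the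
Milnor K-group `K_n^M(F)` is a torsion group, that is `K_n^M(F) ⊗ ℚ = 0`. -/
theorem result (p : ℕ) [Fact p.Prime] (F : Type) [Field F] [Algebra (ZMod p) F] (d : ℕ)
    (htr : Algebra.trdeg (ZMod p) F ≤ d) (n : ℕ) (hn : 2 ^ d ≤ n) (ξ : MilnorK F n) :
    ∃ N : ℕ, 0 < N ∧ N • ξ = 0 :=
  charP_transfer p d n
    (fun k L _ _ _ _ _ _ h T hT x => main_functional4 p k L d h n hn T hT x) F htr ξ

end Pool.Agent.Results.MP_27fd67_ag.MilnorK
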