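import Pool.Agent.K1.UFinal

/-!
Parshin's conjecture for `K_1` and zero-cycles, in all dimensions `d ≥ 3`: for every regular
projective variety `X` of dimension `d` over an algebraic extension `F` of a prime field `F_p` (a
finite field, or an algebraic closure of it), the group
`CH_0(X, 1) = CH^d(X, 1) = H^(d-1)(X, K_d)`, the homology of the Gersten complex

  `⨁ K_2(κ(η)) → ⨁ κ(x)^* → ⨁ ℤ`

(`η` runs through the points of codimension `d - 2`, that is, the surfaces in `X`, `x` through the
points of codimension `d - 1`, that is, the curves, and the last sum is over the closed points) is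
a torsion group.
-/

set_option autoImplicit false

open AlgebraicGeometry CategoryTheory Pool.Agent.K1

namespace Pool.Agent.Results.MP_27fd67_ag.ZeroCyclesK1

/-- Let `F` be an algebraic extension of the field with `p` elements (for example a finite field),
`X` an integral closed subscheme of a projective space over `F`, all of whose local rings are
regular, of dimension `e + 3`.  Every chain `ξ` of nonzero rational functions on the curves of `X`
(points of codimension `e + 2`) with divisor zero has a positive multiple that is a sum of
boundaries of pairs of nonzero rational functions on surfaces in `X` (points of codimension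
`e + 1`). -/
theorem result (p : ℕ) [Fact p.Prime] (F : Type) [Field F]
    [Algebra (ZMod p) F] [Algebra.IsAlgebraic (ZMod p) F] (n e : ℕ)
    (X : Scheme.{0}) [IsIntegral X] [IsNoetherian X] (i : X ⟶ PN F n) [IsClosedImmersion i]
    (hreg : ∀ x : X, IsRegularLocalRing (X.presheaf.stalk x))
    (hdim : ∀ x : X, Order.coheight x ≤ ((e + 3 : ℕ) : ℕ∞))
    (hdim2 : ∃ x : X, Order.coheight x = ((e + 3 : ℕ) : ℕ∞))
    (ξ : KChain X (e + 2)) (hξ : IsCycleK ξ) :
    ∃ N : ℕ, 0 < N ∧ N • ξ ∈ bdChains X (e + 1) :=
  K1_zero_cycles_field p F n e X i hreg hdim hdim2 ξ hξ

end Pool.Agent.Results.MP_27fd67_ag.ZeroCyclesK1
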